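import Pool.Agent.H743.JL.StmD
import Pool.Agent.H743.X17.Stm

/-!
# JL-FI: the joint law (helper181 for helper743)
-/

set_option autoImplicit false
set_option linter.all false

open scoped Classical

namespace Pool.Agent.H181.JL

open Finset Filter Topology
open Pool.Agent.Y703.CQ (c2)
open Pool.Agent.H743.X17 (Sys Rt)
open Pool.Agent.N855.GF.Lc17 (Lc Loc lc_Loc lc_and low_P close_NS)
open Pool.Agent.N919.BS (NN NS HG ratio)
open Pool.Agent.H743.JL

theorem Lc.of_dvd {m m' : ℕ} (h : m ∣ m') {Q : ℤ → Prop} (hQ : Lc m Q) : Lc m' Q :=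
  fun s k M N hs hk hM hN h1 h2 h3 => hQ s k M N hs hk hM hN h1 h2 (by
    rw [← Nat.mod_mod_of_dvd M h, ← Nat.mod_mod_of_dvd N h, h3])

theorem Loc_self (inf : Prop) (S : Finset ℕ) {d₀ : ℤ} (hd : Squarefree d₀) :
    Loc inf S d₀ d₀ := by
  refine ⟨fun _ => mul_self_pos.2 hd.ne_zero, fun p _ _ => ⟨(d₀ : ℚ_[p]), ?_⟩⟩
  push_cast
  ring

theorem NS_congr {P Q : ℤ → Prop} (h : ∀ d, Squarefree d → (P d ↔ Q d)) (X : ℕ) :
    NS P X = NS Q X := by
  unfold NS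
  congr 1
  exact filter_congr fun d _ => and_congr_right fun hsq => h d hsq

theorem t_FI (h : S_PT) (h1 : S_LR) (hp : Pool.Agent.H743.X17.S_PARITY) (h2 : S_TT) : S_FI := by
  intro T inf S d₀ hT hS hd
  obtain ⟨m₀, h136, hm₀, hL⟩ := lc_Loc inf S hS d₀
  obtain ⟨m, hm⟩ : ∃ m : ℕ, m = m₀ * ∏ t ∈ T, t.natAbs := ⟨_, rfl⟩
  have hmpos : 0 < m := by
    rw [hm]
    refine Nat.mul_pos hm₀ (prod_pos fun t ht => ?_)
    exact Int.natAbs_pos.2 (hT t ht).ne_zero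
  have hm1 : m₀ ∣ m := by
    rw [hm]
    exact Dvd.intro _ rfl
  have h136m : 136 ∣ m := h136.trans hm1
  have hdvd : ∀ t ∈ T, 136 * t ∣ (m : ℤ) := by
    intro t ht
    rw [hm]
    push_cast
    refine mul_dvd_mul (by exact_mod_cast h136) ?_
    have h3 : t ∣ ((t.natAbs : ℕ) : ℤ) := Int.dvd_natAbs.2 dvd_rfl
    have h4 : ((t.natAbs : ℕ) : ℤ) ∣ ∏ t ∈ T, ((t.natAbs : ℕ) : ℤ) := dvd_prod_of_mem _ ht
    have h5 := h3.trans h4
    simpa using h5
  have hQ : Lc m (Qc T inf S d₀) := by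
    intro s k M N hs hk hM hN e1 e2 e3
    unfold Qc
    refine and_congr ?_ (Lc.of_dvd hm1 hL s k M N hs hk hM hN e1 e2 e3)
    refine forall_congr' fun t => forall_congr' fun ht => ?_
    exact iff_congr (h1 t m (hT t ht) (hdvd t ht) s k M N hs hk hM hN e1 e2 e3) Iff.rfl
  have hQ0 : Qc T inf S d₀ d₀ := ⟨fun _ _ => Iff.rfl, Loc_self inf S hd⟩
  obtain ⟨c, X₀, hc, hlow⟩ := low_P (Dvd.dvd.trans (by norm_num) h136m) hmpos hQ hd hQ0
  refine ⟨⟨c, X₀, hc, fun X hX => (hlow X hX).2⟩, fun A hA => ?_⟩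
  obtain ⟨T', hT'⟩ : ∃ T' : Finset ℤ, T' = T.filter (fun t => Rt (tw t d₀)) := ⟨_, rfl⟩
  rw [← hT'] at hA ⊢
  have hG := h T' m (Qc T inf S d₀) h136m hmpos (fun t ht => by
      rw [hT', mem_filter] at ht
      exact ⟨hT t ht.1, (Dvd.intro_left _ rfl).trans (hdvd t ht.1)⟩) hQ
    (fun d hd' hq t ht => by
      rw [hT', mem_filter] at ht
      exact (hq.1 t ht.1).2 ht.2) A hA
  have hlim := ratio hc (fun X hX => (hlow X hX).2) (close_NS hG)
  have heq : ∀ X : ℕ, NS (fun d => Qc T inf S d₀ d ∧ ∀ t ∈ T, (Sys (tw t d) ↔ t ∈ A)) X =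
      NS (fun d => Qc T inf S d₀ d ∧ ∀ t ∈ T', (Sys (tw t d) ↔ t ∈ A)) X := by
    intro X
    refine NS_congr (fun d hsq => ?_) X
    refine and_congr_right fun hq => ?_
    constructor
    · intro h3 t ht
      rw [hT', mem_filter] at ht
      exact h3 t ht.1
    · intro h3 t ht
      by_cases hR : Rt (tw t d₀)
      · exact h3 t (by rw [hT', mem_filter]; exact ⟨ht, hR⟩)
      · have h4 : ¬ Rt (tw t d) := fun h5 => hR ((hq.1 t ht).1 h5)
        have h5 : ¬ Sys (tw t d) := hp _ (Pool.Agent.N855.GF.Tw.tw_sqf (hT t ht) hsq) h4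
        have h6 : t ∉ A := fun h7 => by
          have h8 := hA h7
          rw [hT', mem_filter] at h8
          exact hR h8.2
        exact ⟨fun h7 => absurd h7 h5, fun h7 => absurd h7 h6⟩
  simp only [heq]
  exact hlim

end Pool.Agent.H181.JL
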